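import Pool.Agent.TH749.PJ.Stm

/-! From (P1), (P2), (P3) to separation of jets at one tuple of points of the surface. -/

set_option autoImplicit false

namespace Pool.Agent.TH79.PJ

open MvPolynomial Pool.Agent.W607 Pool.Agent.TH749.PJ

theorem glue (h1 : S_P1) (h2 : S_P2) (h3 : S_P3) {d : ℕ} {F : MvPolynomial (Fin (3 + 1)) ℂ}
    (hd : 1 ≤ d) (hF : F.IsHomogeneous d) (hirr : Irreducible F)
    (h0 : eval ![0, 0, 0, 1] F ≠ 0) {n M E : ℕ} (hn : 10 ≤ n)
    (hE : √(n : ℝ) * (M + 1) < E + 3) :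
    ∃ w : Fin (n * d) → Fin (3 + 1) → ℂ, (∀ q, w q 0 = 1) ∧ (∀ q, eval (w q) F = 0) ∧
      Sep (Ideal.span {F}) (X 0) (E + d - 1) M w := by
  classical
  obtain ⟨Φ, hΦ, hΦ'⟩ := h1 n M E hn hE
  obtain ⟨Ψ, hΨ, hΨ'⟩ := h2 d F hd hF hirr h0
  let Θ : MvPolynomial (Fin n × Fin 2) ℂ := Φ * (∏ i : Fin n, rename (fun a => (i, a)) Ψ) *
    ∏ i : Fin n, ∏ j ∈ Finset.univ.erase i, (X (i, 0) - X (j, 0))
  have hΘ : Θ ≠ 0 := by
    refine mul_ne_zero (mul_ne_zero hΦ ?_) ?_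
    · refine Finset.prod_ne_zero_iff.2 fun i _ => ?_
      intro h
      apply hΨ
      apply rename_injective (fun a : Fin 2 => (i, a)) (fun a b hab => (Prod.mk.inj hab).2)
      rw [h, map_zero]
    · refine Finset.prod_ne_zero_iff.2 fun i _ => Finset.prod_ne_zero_iff.2 fun j hj => ?_
      rw [sub_ne_zero]
      intro h
      have := X_injective h
      exact (Finset.ne_of_mem_erase hj) (Prod.mk.inj this).1.symm
  obtain ⟨x, hx⟩ : ∃ x : Fin n × Fin 2 → ℂ, eval x Θ ≠ 0 := by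
    by_contra hcon
    push Not at hcon
    exact hΘ (MvPolynomial.funext fun x => by rw [hcon x, map_zero])
  rw [map_mul, map_mul, map_prod, map_prod] at hx
  have hx1 : eval x Φ ≠ 0 := left_ne_zero_of_mul (left_ne_zero_of_mul hx)
  have hx2 : ∀ i : Fin n, eval ![x (i, 0), x (i, 1)] Ψ ≠ 0 := by
    intro i
    have h := Finset.prod_ne_zero_iff.1 (right_ne_zero_of_mul (left_ne_zero_of_mul hx)) i
      (Finset.mem_univ i)
    rw [eval_rename] at h
    have e : (x ∘ fun a : Fin 2 => (i, a)) = ![x (i, 0), x (i, 1)] := by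
      funext a
      fin_cases a <;> rfl
    rwa [e] at h
  have hx3 : ∀ i j : Fin n, j ≠ i → x (i, 0) ≠ x (j, 0) := by
    intro i j hij
    have h := Finset.prod_ne_zero_iff.1 (right_ne_zero_of_mul hx) i (Finset.mem_univ i)
    rw [map_prod] at h
    have h' := Finset.prod_ne_zero_iff.1 h j (Finset.mem_erase.2 ⟨hij, Finset.mem_univ j⟩)
    rw [map_sub, eval_X, eval_X] at h'
    exact sub_ne_zero.1 h'
  choose t ht1 ht2 using fun i => hΨ' (x (i, 0)) (x (i, 1)) (hx2 i)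
  refine ⟨_, ?_, ?_, h3 d n E M F hd hF h0 (fun i a => x (i, a)) ?_
    (hΦ' (fun i a => x (i, a)) hx1) t ht1 ht2⟩
  · intro q
    rfl
  · intro q
    exact ht2 _ _
  · intro i j hij
    by_contra hne
    exact hx3 i j (fun h => hne h.symm) (congrFun hij 0)

end Pool.Agent.TH79.PJ
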